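import Mathlib
import Pool.Agent.HD21.RHosts

/-!
# TSP and Steiner Tree at highway dimension at most 3: reduction to bounded treewidth

For all `h`, `k` and `C` there is a number `t` such that every finite connected graph `G` with
non-negative weights and highway dimension at most `h`, where `h ≤ 3` and `C ≥ 100000000`, or all
single-linkage clusters of `G` at threshold `s` have diameter at most `C * s` (for every `s`), has
`k` explicitly constructed host graphs on the same vertex set, of treewidth at most `t`, whose edges
are weighted by the distance of `G`, such that distances in the hosts dominate those of `G` and add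
up to at most `(k + 8 C)` times those of `G`. Hence no host has a smaller TSP or STP value than
`G`, and some host has a value of at most `(1 + 8 C / k)` times that of `G`.
-/

namespace Pool.Agent.Results.MP_485266_lc.BoundedHosts

open HD21

theorem result (h k : ℕ) (hk : 0 < k) (C : ℝ) (hC : 0 ≤ C) : ∃ t : ℕ,
    ∀ (V : Type) [Fintype V] [LinearOrder V] (G : SimpleGraph V) (wt : Sym2 V → ℝ),
    (∀ e, 0 ≤ wt e) → G.Connected → HighwayDimLE G wt h →
    ((h ≤ 3 ∧ 100000000 ≤ C) ∨ UD C (gdist G wt)) →
    UD C (gdist G wt) ∧
    (∃ σ N, Adm (gdist G wt) k σ N) ∧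
    ∀ σ N, Adm (gdist G wt) k σ N →
      (∀ j, (hostGraph G wt k σ N j).Connected) ∧
      (∀ j, TreewidthLE (hostGraph G wt k σ N j) t) ∧
      (∀ j u v, gdist G wt u v ≤ gdist (hostGraph G wt k σ N j) (dwt (gdist G wt)) u v) ∧
      (∀ u v, ∑ j, gdist (hostGraph G wt k σ N j) (dwt (gdist G wt)) u v ≤
        (k + 8 * C) * gdist G wt u v) ∧
      (∀ j, tsp G wt ≤ tsp (hostGraph G wt k σ N j) (dwt (gdist G wt))) ∧
      (∃ j, tsp (hostGraph G wt k σ N j) (dwt (gdist G wt)) ≤ (1 + 8 * C / k) * tsp G wt) ∧
      (∀ R : Set V, R.Nonempty →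
        (∀ j, stp G wt R ≤ stp (hostGraph G wt k σ N j) (dwt (gdist G wt)) R) ∧
        ∃ j, stp (hostGraph G wt k σ N j) (dwt (gdist G wt)) R ≤
          (1 + 8 * C / k) * stp G wt R) :=
  bounded_hosts h k hk C hC

end Pool.Agent.Results.MP_485266_lc.BoundedHosts
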