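import Mathlib
import Pool.Agent.HD21.QCut

/-!
# TSP and Steiner Tree at highway dimension at most 3: one host graph of treewidth `O(log (n/ε))`

For all `h` and `C ≥ 100000000` there is a constant `K` such that for every finite connected graph
`G` with `n` vertices, non-negative weights and highway dimension at most `h`, where `h ≤ 3` or all
single-linkage clusters of `G` at threshold `s` have diameter at most `C * s`: for every accuracy
`ε ≤ 1` and every `B > 0` an explicit host graph on the same vertex set, whose edges are weighted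
by the distance of `G`, is connected and has treewidth at most `K * (1 + log (n / ε))`; its
distances dominate those of `G`, and if `B` is an estimate of the TSP or STP value of `G` up to
the factor `2` from below, then the TSP or STP value of the host is at most `(1 + ε)` times that
of `G`.
-/

namespace Pool.Agent.Results.MP_485266_lc.LogHosts

open HD21

theorem result (h : ℕ) (C : ℝ) (hC : 100000000 ≤ C) : ∃ K : ℕ,
    ∀ (V : Type) [Fintype V] [LinearOrder V] (G : SimpleGraph V) (wt : Sym2 V → ℝ),
    (∀ e, 0 ≤ wt e) → G.Connected → HighwayDimLE G wt h → (h ≤ 3 ∨ UD C (gdist G wt)) →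
    ∀ ε B : ℝ, 0 < ε → ε ≤ 1 → 0 < B → ∀ (r : V) (Γ : SimpleGraph V),
      Γ = hostE G wt (bottom C (Fintype.card V) ε B)
        (2 ^ levels C (Fintype.card V) ε * bottom C (Fintype.card V) ε B) r →
      Γ.Connected ∧
      (∃ t : ℕ, (t : ℝ) ≤ K * (1 + Real.log (Fintype.card V / ε)) ∧ TreewidthLE Γ t) ∧
      (∀ u v, gdist G wt u v ≤ gdist Γ (dwt (gdist G wt)) u v) ∧
      tsp G wt ≤ tsp Γ (dwt (gdist G wt)) ∧
      (B ≤ tsp G wt → tsp G wt ≤ 2 * B →
        tsp Γ (dwt (gdist G wt)) ≤ (1 + ε) * tsp G wt) ∧
      (∀ R : Set V, R.Nonempty →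
        stp G wt R ≤ stp Γ (dwt (gdist G wt)) R ∧
        (B ≤ stp G wt R → stp G wt R ≤ 2 * B →
          stp Γ (dwt (gdist G wt)) R ≤ (1 + ε) * stp G wt R)) :=
  log_hosts_main h C hC

end Pool.Agent.Results.MP_485266_lc.LogHosts
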