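import Mathlib
import Pool.Agent.HD21.QCut

/-!
# Treewidth `O(log α)` at highway dimension at most 3

For all `h` and `C` there is a constant `K` such that for every finite connected graph `G` with
non-negative weights and highway dimension at most `h`, where `h ≤ 3` or all single-linkage
clusters of `G` at threshold `s` have diameter at most `C * s`: if all distances of different
vertices lie between `δ > 0` and `2 ^ m * δ`, then the graph of the tight edges of `G` (the edges
which are shortest paths), and each of its subgraphs, has treewidth at most `K * (m + 1)`, which is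
`O(log α)` for the aspect ratio `α`.
-/

namespace Pool.Agent.Results.MP_485266_lc.LogTreewidth

open HD21

theorem result (h : ℕ) (C : ℝ) : ∃ K : ℕ,
    ∀ (V : Type) [Fintype V] (G : SimpleGraph V) (wt : Sym2 V → ℝ),
    (∀ e, 0 ≤ wt e) → G.Connected → HighwayDimLE G wt h → (h ≤ 3 ∨ UD C (gdist G wt)) →
    ∀ (δ : ℝ) (m : ℕ), 0 < δ → (∀ u v, u ≠ v → δ ≤ gdist G wt u v) →
      (∀ u v, gdist G wt u v ≤ 2 ^ m * δ) →
      ∀ H : SimpleGraph V, (∀ u v, H.Adj u v → Tight G wt u v) →
      TreewidthLE H (K * (m + 1)) :=
  log_tw_main h C

end Pool.Agent.Results.MP_485266_lc.LogTreewidth
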