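import Mathlib
import Pool.Agent.HD21.RMain

/-!
# TSP is NP-hard at highway dimension 1

Let `F` be a finite connected graph whose edges are numbered by different natural numbers, and let
`subdiv F` be its subdivision, in which both halves of the edge number `k` weigh `8 ^ k`. This
graph has highway dimension at most `1`, its TSP value is at least `2 * ∑ 8 ^ k`, and equality
holds if and only if `F` has a closed trail through all its vertices; if `F` is `3`-regular,
equality holds if and only if `F` is Hamiltonian.
-/

namespace Pool.Agent.Results.MP_485266_lc.TspHardOne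

open HD21

theorem result {A : Type*} [Fintype A] [DecidableEq A] (F : SimpleGraph A) [DecidableRel F.Adj]
    (hF : F.Connected) (num : F.edgeSet → ℕ) (hnum : Function.Injective num) :
    (subdiv F).Connected ∧ (∀ e, 0 ≤ subWt num e) ∧
    HighwayDimLE (subdiv F) (subWt num) 1 ∧
    2 * ∑ e, (8 : ℝ) ^ num e ≤ tsp (subdiv F) (subWt num) ∧
    (tsp (subdiv F) (subWt num) = 2 * ∑ e, (8 : ℝ) ^ num e ↔
      ∃ (x : A) (q : F.Walk x x), q.IsTrail ∧ ∀ y, y ∈ q.support) ∧
    (F.IsRegularOfDegree 3 →
      (tsp (subdiv F) (subWt num) = 2 * ∑ e, (8 : ℝ) ^ num e ↔ F.IsHamiltonian)) := by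
  letI : DecidableEq (A ⊕ F.edgeSet) := Classical.decEq _
  exact ⟨connected_subdiv hF, subWt_nonneg num, hd_subdiv num hnum, tsp_ge hF num,
    tsp_eq_iff_trail hF num, fun h3 => (tsp_eq_iff_trail hF num).trans (ham_iff_trail h3)⟩

end Pool.Agent.Results.MP_485266_lc.TspHardOne
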